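import Mathlib
import Pool.Agent.H93.RS.Defs

/-!
# integrals of `f(R,u)^2`
-/

set_option autoImplicit false

namespace Pool.Agent.H82.RS

open Finset Real MeasureTheory intervalIntegral
open Pool.Agent.H93.RS

theorem dz_eq_norm (u : ℝ) : dz u = ‖(u : UnitAddCircle)‖ := by
  rw [UnitAddCircle.norm_eq]
  rfl

theorem cont_dz : Continuous dz := by
  have h : dz = fun u : ℝ => ‖(u : UnitAddCircle)‖ := funext dz_eq_norm
  rw [h]
  exact continuous_norm.comp (AddCircle.continuous_mk' 1)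

theorem cont_ff {R : ℝ} (hR : 0 ≤ R) : Continuous (ff R) := by
  unfold ff
  apply continuous_const.div (continuous_const.add (continuous_const.mul cont_dz))
  intro u
  have h := mul_nonneg hR (dz_nonneg u)
  have h2 : 0 < 1 + R * dz u := by linarith
  exact h2.ne'

theorem dz_add_one (u : ℝ) : dz (u + 1) = dz u := by
  rw [dz_eq_norm, dz_eq_norm]
  congr 1
  rw [AddCircle.coe_add, AddCircle.coe_period, add_zero]

theorem dz_add (u v : ℝ) : dz (u + v) ≤ dz u + dz v := by
  rw [dz_eq_norm, dz_eq_norm, dz_eq_norm, AddCircle.coe_add]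
  exact norm_add_le _ _

theorem dz_le_abs (u : ℝ) : dz u ≤ |u| := by
  unfold dz
  have h := round_le u 0
  simpa using h

theorem dz_lip (u v : ℝ) : dz u ≤ dz v + |u - v| := by
  have h1 := dz_add v (u - v)
  have h2 := dz_le_abs (u - v)
  have h3 : v + (u - v) = u := by ring
  rw [h3] at h1
  linarith

theorem dz_of_abs {u : ℝ} (h : |u| ≤ 1 / 2) : dz u = |u| := by
  rw [dz_eq_norm]
  apply (AddCircle.norm_coe_eq_abs_iff (1 : ℝ) one_ne_zero).2
  simpa using h

theorem per_fsq (R : ℝ) : Function.Periodic (fun u => (ff R u) ^ 2) 1 := by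
  intro u
  show (ff R (u + 1)) ^ 2 = (ff R u) ^ 2
  unfold ff
  rw [dz_add_one]

theorem int_fsq {R : ℝ} (hR : 0 ≤ R) (a b : ℝ) :
    IntervalIntegrable (fun u => (ff R u) ^ 2) volume a b :=
  ((cont_ff hR).pow 2).intervalIntegrable a b

theorem half_pos {R : ℝ} (hR : 0 ≤ R) : ∫ u in (0 : ℝ)..(1 / 2), (ff R u) ^ 2 ≤ R := by
  have h1 : ∫ u in (0 : ℝ)..(1 / 2), (ff R u) ^ 2 = ∫ u in (0 : ℝ)..(1 / 2), R ^ 2 / (1 + R * u) ^ 2 := by
    apply intervalIntegral.integral_congr
    intro u hu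
    rw [Set.uIcc_of_le (by norm_num)] at hu
    have h2 : dz u = u := by
      rw [dz_of_abs (by rw [abs_of_nonneg hu.1]; exact hu.2), abs_of_nonneg hu.1]
    simp only [ff, h2, div_pow]
  rw [h1]
  have hd : ∀ u ∈ Set.uIcc (0 : ℝ) (1 / 2),
      HasDerivAt (fun u : ℝ => -(R / (1 + R * u))) (R ^ 2 / (1 + R * u) ^ 2) u := by
    intro u hu
    rw [Set.uIcc_of_le (by norm_num)] at hu
    have hpos : 0 < 1 + R * u := by
      have := mul_nonneg hR hu.1
      linarith
    have h3 : HasDerivAt (fun u : ℝ => 1 + R * u) R u := by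
      have h4 := ((hasDerivAt_id u).const_mul R).const_add 1
      simpa using h4
    have h5 := ((hasDerivAt_const u R).div h3 hpos.ne').neg
    have h6 : -((0 * (1 + R * u) - R * R) / (1 + R * u) ^ 2) = R ^ 2 / (1 + R * u) ^ 2 := by
      rw [zero_mul, zero_sub, neg_div, neg_neg, sq R]
    rw [h6] at h5
    exact h5
  have hint : IntervalIntegrable (fun u : ℝ => R ^ 2 / (1 + R * u) ^ 2) volume 0 (1 / 2) := by
    apply ContinuousOn.intervalIntegrable
    intro u hu
    rw [Set.uIcc_of_le (by norm_num)] at hu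
    have hpos : 0 < 1 + R * u := by
      have := mul_nonneg hR hu.1
      linarith
    apply ContinuousAt.continuousWithinAt
    apply ContinuousAt.div continuousAt_const
    · fun_prop
    · positivity
  rw [intervalIntegral.integral_eq_sub_of_hasDerivAt hd hint]
  have h7 : 0 ≤ R / (1 + R * (1 / 2)) := by positivity
  have h8 : R / (1 + R * 0) = R := by simp
  rw [h8]
  linarith

theorem half_neg {R : ℝ} (hR : 0 ≤ R) : ∫ u in (-(1 / 2) : ℝ)..0, (ff R u) ^ 2 ≤ R := by
  have h1 : ∫ u in (-(1 / 2) : ℝ)..0, (ff R u) ^ 2 = ∫ u in (0 : ℝ)..(1 / 2), (ff R u) ^ 2 := by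
    have h2 := intervalIntegral.integral_comp_neg (a := (0 : ℝ)) (b := 1 / 2)
      (fun u => (ff R u) ^ 2)
    rw [neg_zero] at h2
    rw [← h2]
    apply intervalIntegral.integral_congr
    intro u _
    have h3 : dz (-u) = dz u := by
      rw [dz_eq_norm, dz_eq_norm, AddCircle.coe_neg, norm_neg]
    simp only [ff, h3]
  rw [h1]
  exact half_pos hR

theorem unit_fsq {R : ℝ} (hR : 0 ≤ R) (a : ℝ) : ∫ u in a..(a + 1), (ff R u) ^ 2 ≤ 2 * R := by
  have h1 := (per_fsq R).intervalIntegral_add_eq a (-(1 / 2))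
  rw [h1]
  have h2 : (-(1 / 2) : ℝ) + 1 = 1 / 2 := by norm_num
  rw [h2, ← intervalIntegral.integral_add_adjacent_intervals (int_fsq hR (-(1 / 2)) 0)
    (int_fsq hR 0 (1 / 2))]
  have := half_pos hR
  have := half_neg hR
  linarith

theorem fsq {R a b : ℝ} (hR : 0 ≤ R) (hab : a ≤ b) :
    ∫ u in a..b, (ff R u) ^ 2 ≤ 2 * R * (b - a + 1) := by
  set n : ℤ := ⌈b - a⌉ with hn
  have hn0 : 0 ≤ n := Int.ceil_nonneg (by linarith)
  have h1 : b ≤ a + n • (1 : ℝ) := by
    have := Int.le_ceil (b - a)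
    rw [zsmul_eq_mul, mul_one]
    linarith
  have h2 : (n : ℝ) ≤ b - a + 1 := (Int.ceil_lt_add_one (b - a)).le
  calc ∫ u in a..b, (ff R u) ^ 2 ≤ ∫ u in a..(a + n • (1 : ℝ)), (ff R u) ^ 2 := by
        apply intervalIntegral.integral_mono_interval le_rfl hab h1
        · exact Filter.Eventually.of_forall fun u => sq_nonneg _
        · exact int_fsq hR _ _
    _ = n • ∫ u in a..(a + 1), (ff R u) ^ 2 :=
        (per_fsq R).intervalIntegral_add_zsmul_eq n a (int_fsq hR)
    _ ≤ (b - a + 1) * (2 * R) := by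
        rw [zsmul_eq_mul]
        have h3 := unit_fsq hR a
        have h4 : (0 : ℝ) ≤ n := by exact_mod_cast hn0
        calc (n : ℝ) * ∫ u in a..(a + 1), (ff R u) ^ 2 ≤ (n : ℝ) * (2 * R) :=
              mul_le_mul_of_nonneg_left h3 h4
          _ ≤ (b - a + 1) * (2 * R) := mul_le_mul_of_nonneg_right h2 (by linarith)
    _ = 2 * R * (b - a + 1) := by ring

theorem ph_deriv (j : ℤ) {y : ℝ} (hy : 0 < y) :
    HasDerivAt (ph j) (1 - (j : ℝ) ^ 2 / (4 * y ^ 2)) y := by
  unfold ph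
  have h1 : HasDerivAt (fun y : ℝ => (j : ℝ) ^ 2 / (4 * y)) (-((j : ℝ) ^ 2 / (4 * y ^ 2))) y := by
    have h2 : HasDerivAt (fun y : ℝ => 4 * y) 4 y := by
      have h3 := (hasDerivAt_id y).const_mul 4
      simpa using h3
    have h4 := (hasDerivAt_const y ((j : ℝ) ^ 2)).div h2 (by positivity)
    have h5 : (0 * (4 * y) - (j : ℝ) ^ 2 * 4) / (4 * y) ^ 2 = -((j : ℝ) ^ 2 / (4 * y ^ 2)) := by
      field_simp
      ring
    rw [h5] at h4
    exact h4
  have h6 := (hasDerivAt_id y).add h1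
  have h7 : (1 : ℝ) + -((j : ℝ) ^ 2 / (4 * y ^ 2)) = 1 - (j : ℝ) ^ 2 / (4 * y ^ 2) := by ring
  rw [h7] at h6
  exact h6

/-- change of variables, speed at least `c` -/
theorem fsq_ph {R a b c : ℝ} (j : ℤ) (hR : 0 ≤ R) (ha : 0 < a) (hab : a ≤ b) (hc : 0 < c)
    (hj : (j : ℝ) ^ 2 ≤ (1 - c) * (4 * a ^ 2)) :
    ∫ y in a..b, (ff R (ph j y)) ^ 2 ≤ 2 * R * (b - a + 1) / c := by
  have hsub : ∀ y ∈ Set.uIcc a b, a ≤ y ∧ y ≤ b := by
    intro y hy
    rw [Set.uIcc_of_le hab] at hy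
    exact hy
  have hspeed : ∀ y, a ≤ y → c ≤ 1 - (j : ℝ) ^ 2 / (4 * y ^ 2) := by
    intro y hy
    have hy0 : 0 < y := lt_of_lt_of_le ha hy
    have h1 : (j : ℝ) ^ 2 / (4 * y ^ 2) ≤ 1 - c := by
      rw [div_le_iff₀ (by positivity)]
      have h2 : 4 * a ^ 2 ≤ 4 * y ^ 2 := by nlinarith
      have h3 : 0 ≤ 1 - c := by
        by_contra hneg
        push Not at hneg
        have h4 : (1 - c) * (4 * a ^ 2) < 0 := mul_neg_of_neg_of_pos hneg (by positivity)
        have := sq_nonneg (j : ℝ)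
        linarith
      exact hj.trans (mul_le_mul_of_nonneg_left h2 h3)
    linarith
  have hcontph : ContinuousOn (ph j) (Set.uIcc a b) := by
    intro y hy
    exact (ph_deriv j (lt_of_lt_of_le ha (hsub y hy).1)).continuousAt.continuousWithinAt
  have hcontd : ContinuousOn (fun y : ℝ => 1 - (j : ℝ) ^ 2 / (4 * y ^ 2)) (Set.uIcc a b) := by
    intro y hy
    have hy0 : 0 < y := lt_of_lt_of_le ha (hsub y hy).1
    apply ContinuousAt.continuousWithinAt
    apply ContinuousAt.sub continuousAt_const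
    apply ContinuousAt.div continuousAt_const
    · fun_prop
    · positivity
  have h1 := intervalIntegral.integral_comp_mul_deriv (f := ph j)
    (f' := fun y : ℝ => 1 - (j : ℝ) ^ 2 / (4 * y ^ 2)) (g := fun u => (ff R u) ^ 2)
    (fun y hy => ph_deriv j (lt_of_lt_of_le ha (hsub y hy).1)) hcontd ((cont_ff hR).pow 2)
  have hle : ph j a ≤ ph j b := by
    unfold ph
    have hb0 : 0 < b := lt_of_lt_of_le ha hab
    have h2 : (j : ℝ) ^ 2 / (4 * a) - (j : ℝ) ^ 2 / (4 * b) ≤ b - a := by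
      rw [div_sub_div _ _ (by positivity) (by positivity), div_le_iff₀ (by positivity)]
      have h3 : (j : ℝ) ^ 2 ≤ 4 * a ^ 2 := by
        have h4 := hspeed a le_rfl
        have h5 : (j : ℝ) ^ 2 / (4 * a ^ 2) ≤ 1 := by linarith
        rw [div_le_one (by positivity)] at h5
        exact h5
      have h6 : 0 ≤ b - a := by linarith
      have h7 : 4 * a ^ 2 ≤ 4 * a * b := by nlinarith
      nlinarith [mul_le_mul_of_nonneg_right (h3.trans h7) h6]
    linarith
  have hdiff : ph j b - ph j a ≤ b - a := by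
    unfold ph
    have : (j : ℝ) ^ 2 / (4 * b) ≤ (j : ℝ) ^ 2 / (4 * a) :=
      div_le_div_of_nonneg_left (sq_nonneg _) (by positivity) (by linarith)
    linarith
  have h8 := fsq hR hle
  have hcont1 : ContinuousOn (fun y => (ff R (ph j y)) ^ 2) (Set.uIcc a b) :=
    ((cont_ff hR).comp_continuousOn hcontph).pow 2
  have h9 : c * ∫ y in a..b, (ff R (ph j y)) ^ 2
      ≤ ∫ y in a..b, ((fun u => (ff R u) ^ 2) ∘ ph j) y * (1 - (j : ℝ) ^ 2 / (4 * y ^ 2)) := by
    rw [← intervalIntegral.integral_const_mul]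
    apply intervalIntegral.integral_mono_on hab
    · exact (continuousOn_const.mul hcont1).intervalIntegrable
    · exact (hcont1.mul hcontd).intervalIntegrable
    · intro y hy
      rw [mul_comm]
      exact mul_le_mul_of_nonneg_left (hspeed y hy.1) (sq_nonneg _)
  rw [h1] at h9
  rw [le_div_iff₀ hc, mul_comm]
  refine h9.trans (h8.trans ?_)
  apply mul_le_mul_of_nonneg_left _ (by linarith)
  linarith

end Pool.Agent.H82.RS
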